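import Pool.Agent.H93.DE.Targets

/-! (HOE) Hoeffding's inequality for residues modulo different primes. -/

set_option autoImplicit false

namespace Pool.Agent.H81.DE

open Finset Pool.Agent.H18.MR Pool.Agent.H93.DE

theorem crt_sum (a b : ℕ) (h : a.Coprime b) (f g : ℕ → ℝ) :
    ∑ r ∈ range (a * b), f (r % a) * g (r % b) =
      (∑ r ∈ range a, f r) * (∑ r ∈ range b, g r) := by
  rcases Nat.eq_zero_or_pos a with ha | ha
  · subst ha
    simp
  rcases Nat.eq_zero_or_pos b with hb | hb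
  · subst hb
    simp
  rw [Finset.sum_mul_sum, ← Finset.sum_product']
  refine Finset.sum_nbij' (fun r => (r % a, r % b))
    (fun x => ((Nat.chineseRemainder h x.1 x.2 : ℕ))) ?_ ?_ ?_ ?_ ?_
  · intro r _
    exact Finset.mem_product.2 ⟨Finset.mem_range.2 (Nat.mod_lt _ ha),
      Finset.mem_range.2 (Nat.mod_lt _ hb)⟩
  · intro x _
    exact Finset.mem_range.2 (Nat.chineseRemainder_lt_mul h x.1 x.2 ha.ne' hb.ne')
  · intro r hr
    have h1 : r ≡ r % a [MOD a] := (Nat.mod_modEq r a).symm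
    have h2 : r ≡ r % b [MOD b] := (Nat.mod_modEq r b).symm
    have h3 := Nat.chineseRemainder_modEq_unique h h1 h2
    have h4 := Nat.chineseRemainder_lt_mul h (r % a) (r % b) ha.ne' hb.ne'
    exact (Nat.ModEq.eq_of_lt_of_lt h3 (Finset.mem_range.1 hr) h4).symm
  · rintro ⟨x, y⟩ hx
    rw [Finset.mem_product] at hx
    have hx1 := Finset.mem_range.1 hx.1
    have hx2 := Finset.mem_range.1 hx.2
    have h1 := (Nat.chineseRemainder h x y).2.1
    have h2 := (Nat.chineseRemainder h x y).2.2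
    refine Prod.ext ?_ ?_
    · exact Nat.mod_eq_of_modEq h1 hx1
    · exact Nat.mod_eq_of_modEq h2 hx2
  · intro r _
    rfl

theorem prod_sum (Q : Finset ℕ) (F : ℕ → ℕ → ℝ) (hQ : ∀ p ∈ Q, p.Prime) :
    ∑ r ∈ range (∏ p ∈ Q, p), ∏ p ∈ Q, F p (r % p) = ∏ p ∈ Q, ∑ r ∈ range p, F p r := by
  classical
  induction Q using Finset.induction_on with
  | empty => simp
  | insert q Q hq ih =>
    have hQ' : ∀ p ∈ Q, p.Prime := fun p hp => hQ p (Finset.mem_insert_of_mem hp)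
    have hqp : q.Prime := hQ q (Finset.mem_insert_self _ _)
    rw [Finset.prod_insert hq, Finset.prod_insert hq, ← ih hQ']
    have hco : q.Coprime (∏ p ∈ Q, p) := by
      refine Nat.Coprime.prod_right fun p hp => ?_
      refine (Nat.coprime_primes hqp (hQ' p hp)).2 ?_
      rintro rfl
      exact hq hp
    rw [← crt_sum q (∏ p ∈ Q, p) hco (F q) (fun r => ∏ p ∈ Q, F p (r % p))]
    refine Finset.sum_congr rfl fun r _ => ?_
    rw [Finset.prod_insert hq]
    congr 1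
    refine Finset.prod_congr rfl fun p hp => ?_
    rw [Nat.mod_mod_of_dvd _ (Finset.dvd_prod_of_mem (fun p => p) hp)]

theorem factor_le (p : ℕ) (t : ℕ → ℝ) (B lam : ℝ) (hB : 0 < B)
    (h1 : ∀ r, r < p → |t r| ≤ B) (h2 : ∑ r ∈ range p, t r = 0) :
    ∑ r ∈ range p, Real.exp (lam * t r) ≤ p * Real.exp (lam ^ 2 * B ^ 2 / 2) := by
  calc ∑ r ∈ range p, Real.exp (lam * t r)
      ≤ ∑ r ∈ range p, (Real.cosh (lam * B) + t r * (Real.sinh (lam * B) / B)) := by
        refine Finset.sum_le_sum fun r hr => ?_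
        have h3 : |t r / B| ≤ 1 := by
          rw [abs_div, abs_of_pos hB, div_le_one hB]
          exact h1 r (Finset.mem_range.1 hr)
        have h4 := Real.exp_mul_le_cosh_add_mul_sinh h3 (lam * B)
        have h5 : t r / B * (lam * B) = lam * t r := by
          field_simp
        rw [h5] at h4
        refine h4.trans (le_of_eq ?_)
        ring
    _ = p * Real.cosh (lam * B) := by
        rw [Finset.sum_add_distrib, ← Finset.sum_mul, h2]
        simp
    _ ≤ p * Real.exp (lam ^ 2 * B ^ 2 / 2) := by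
        refine mul_le_mul_of_nonneg_left ?_ (Nat.cast_nonneg _)
        refine (Real.cosh_le_exp_half_sq _).trans (le_of_eq ?_)
        congr 1
        ring

theorem sum_exp_le (Q : Finset ℕ) (t : ℕ → ℕ → ℝ) (B lam : ℝ) (hQ : ∀ p ∈ Q, p.Prime)
    (hB : 0 < B) (h1 : ∀ p ∈ Q, ∀ r, r < p → |t p r| ≤ B)
    (h2 : ∀ p ∈ Q, ∑ r ∈ range p, t p r = 0) :
    ∑ r ∈ range (∏ p ∈ Q, p), Real.exp (lam * ∑ p ∈ Q, t p (r % p)) ≤
      Real.exp (lam ^ 2 * B ^ 2 / 2 * Q.card) * ∏ p ∈ Q, (p : ℝ) := by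
  calc ∑ r ∈ range (∏ p ∈ Q, p), Real.exp (lam * ∑ p ∈ Q, t p (r % p))
      = ∑ r ∈ range (∏ p ∈ Q, p), ∏ p ∈ Q, Real.exp (lam * t p (r % p)) := by
        refine Finset.sum_congr rfl fun r _ => ?_
        rw [← Real.exp_sum, Finset.mul_sum]
    _ = ∏ p ∈ Q, ∑ r ∈ range p, Real.exp (lam * t p r) :=
        prod_sum Q (fun p r => Real.exp (lam * t p r)) hQ
    _ ≤ ∏ p ∈ Q, ((p : ℝ) * Real.exp (lam ^ 2 * B ^ 2 / 2)) := by
        refine Finset.prod_le_prod (fun p _ => Finset.sum_nonneg fun r _ => (Real.exp_pos _).le)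
          fun p hp => ?_
        exact factor_le p (t p) B lam hB (h1 p hp) (h2 p hp)
    _ = Real.exp (lam ^ 2 * B ^ 2 / 2 * Q.card) * ∏ p ∈ Q, (p : ℝ) := by
        rw [Finset.prod_mul_distrib, Finset.prod_const, ← Real.exp_nat_mul, mul_comm]
        congr 2
        ring

open Classical in
theorem one_side (Q : Finset ℕ) (t : ℕ → ℕ → ℝ) (B s σ : ℝ) (hQ : ∀ p ∈ Q, p.Prime)
    (hB : 0 < B) (hs : 0 ≤ s) (hσ : σ ^ 2 = 1) (h1 : ∀ p ∈ Q, ∀ r, r < p → |t p r| ≤ B)
    (h2 : ∀ p ∈ Q, ∑ r ∈ range p, t p r = 0) (hn : 0 < Q.card) :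
    (((range (∏ p ∈ Q, p)).filter (fun r => s < σ * ∑ p ∈ Q, t p (r % p))).card : ℝ) ≤
      Real.exp (-(s ^ 2 / (2 * B ^ 2 * Q.card))) * ∏ p ∈ Q, (p : ℝ) := by
  have hn' : (0 : ℝ) < Q.card := by exact_mod_cast hn
  set lam : ℝ := s / (B ^ 2 * Q.card) with hlam
  have hl0 : 0 ≤ lam := by positivity
  have h3 := sum_exp_le Q t B (σ * lam) hQ hB h1 h2
  have h4 : (σ * lam) ^ 2 * B ^ 2 / 2 * Q.card = s ^ 2 / (2 * B ^ 2 * Q.card) := by
    rw [mul_pow, hσ, hlam]
    field_simp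
  have h5 : lam * s = s ^ 2 / (2 * B ^ 2 * Q.card) + s ^ 2 / (2 * B ^ 2 * Q.card) := by
    rw [hlam]
    field_simp
    ring
  rw [h4] at h3
  set E := s ^ 2 / (2 * B ^ 2 * Q.card) with hE
  set W := (range (∏ p ∈ Q, p)).filter (fun r => s < σ * ∑ p ∈ Q, t p (r % p)) with hW
  have h6 : (W.card : ℝ) * Real.exp (lam * s) ≤ Real.exp E * ∏ p ∈ Q, (p : ℝ) := by
    refine le_trans ?_ h3
    calc (W.card : ℝ) * Real.exp (lam * s) = ∑ r ∈ W, Real.exp (lam * s) := by
          rw [Finset.sum_const, nsmul_eq_mul]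
      _ ≤ ∑ r ∈ W, Real.exp (σ * lam * ∑ p ∈ Q, t p (r % p)) := by
          refine Finset.sum_le_sum fun r hr => Real.exp_le_exp.2 ?_
          have hr' := (Finset.mem_filter.1 hr).2
          calc lam * s ≤ lam * (σ * ∑ p ∈ Q, t p (r % p)) :=
                mul_le_mul_of_nonneg_left hr'.le hl0
            _ = σ * lam * ∑ p ∈ Q, t p (r % p) := by ring
      _ ≤ ∑ r ∈ range (∏ p ∈ Q, p), Real.exp (σ * lam * ∑ p ∈ Q, t p (r % p)) :=
          Finset.sum_le_sum_of_subset_of_nonneg (Finset.filter_subset _ _)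
            fun r _ _ => (Real.exp_pos _).le
  have h7 : Real.exp (-E) * (∏ p ∈ Q, (p : ℝ)) * Real.exp (lam * s) =
      Real.exp E * ∏ p ∈ Q, (p : ℝ) := by
    have : Real.exp (-E) * Real.exp (lam * s) = Real.exp E := by
      rw [← Real.exp_add, h5]
      congr 1
      ring
    rw [mul_right_comm, this]
  rw [← h7] at h6
  exact le_of_mul_le_mul_right h6 (Real.exp_pos _)

theorem pf_HOE : T_HOE := by
  classical
  intro Q t B s hQ hB hs h1 h2
  rcases Nat.eq_zero_or_pos Q.card with hn | hn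
  · have hQ0 : Q = ∅ := Finset.card_eq_zero.1 hn
    subst hQ0
    have : ((range (∏ p ∈ (∅ : Finset ℕ), p)).filter
        (fun r => s < |∑ p ∈ (∅ : Finset ℕ), t p (r % p)|)) = ∅ := by
      refine Finset.filter_eq_empty_iff.2 fun r _ => ?_
      simp only [Finset.sum_empty, abs_zero, not_lt]
      exact hs
    rw [this]
    simp only [Finset.card_empty, Nat.cast_zero]
    positivity
  · have ha := one_side Q t B s 1 hQ hB hs (by norm_num) h1 h2 hn
    have hb := one_side Q t B s (-1) hQ hB hs (by norm_num) h1 h2 hn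
    have hsub : ((range (∏ p ∈ Q, p)).filter (fun r => s < |∑ p ∈ Q, t p (r % p)|)) ⊆
        ((range (∏ p ∈ Q, p)).filter (fun r => s < 1 * ∑ p ∈ Q, t p (r % p))) ∪
        ((range (∏ p ∈ Q, p)).filter (fun r => s < (-1) * ∑ p ∈ Q, t p (r % p))) := by
      intro r hr
      obtain ⟨hr1, hr2⟩ := Finset.mem_filter.1 hr
      rcases lt_abs.1 hr2 with h | h
      · refine Finset.mem_union_left _ (Finset.mem_filter.2 ⟨hr1, ?_⟩)
        rw [one_mul]
        exact h
      · refine Finset.mem_union_right _ (Finset.mem_filter.2 ⟨hr1, ?_⟩)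
        rw [neg_one_mul]
        exact h
    have hc : ((((range (∏ p ∈ Q, p)).filter
        (fun r => s < |∑ p ∈ Q, t p (r % p)|)).card : ℕ) : ℝ) ≤
        ((((range (∏ p ∈ Q, p)).filter (fun r => s < 1 * ∑ p ∈ Q, t p (r % p))).card : ℕ) : ℝ) +
        ((((range (∏ p ∈ Q, p)).filter
          (fun r => s < (-1) * ∑ p ∈ Q, t p (r % p))).card : ℕ) : ℝ) := by
      exact_mod_cast (Finset.card_le_card hsub).trans (Finset.card_union_le _ _)
    rw [show 2 * Real.exp (-(s ^ 2 / (2 * B ^ 2 * Q.card))) * ∏ p ∈ Q, (p : ℝ) =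
      Real.exp (-(s ^ 2 / (2 * B ^ 2 * Q.card))) * ∏ p ∈ Q, (p : ℝ) +
      Real.exp (-(s ^ 2 / (2 * B ^ 2 * Q.card))) * ∏ p ∈ Q, (p : ℝ) by ring]
    refine hc.trans (add_le_add ?_ ?_)
    · refine le_trans (le_of_eq ?_) ha
      congr 2
    · refine le_trans (le_of_eq ?_) hb
      congr 2

end Pool.Agent.H81.DE
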