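import Pool.Agent.H93.DE.Targets

/-! (SUM) the entropy decrement over all octaves together. -/

set_option autoImplicit false

namespace Pool.Agent.H81.DE

open Finset Pool.Agent.H18.MR Pool.Agent.H93.DE

theorem prim_succ (m : ℕ) : primorial (2 ^ (m + 1)) = primorial (2 ^ m) * pr m := by
  have h : 2 ^ (m + 1) = 2 ^ m + 2 ^ m := by ring
  rw [h, primorial_add]
  congr 1
  unfold pr oct
  refine Finset.prod_congr ?_ fun _ _ => rfl
  ext p
  simp only [Finset.mem_filter, Finset.mem_Ico, Finset.mem_Ioc, h]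
  constructor
  · rintro ⟨⟨h1, h2⟩, h3⟩
    exact ⟨⟨by omega, by omega⟩, h3⟩
  · rintro ⟨⟨h1, h2⟩, h3⟩
    exact ⟨⟨by omega, by omega⟩, h3⟩

theorem prim_dvd {m n : ℕ} (h : m ≤ n) : primorial m ∣ primorial n := by
  unfold primorial
  refine Finset.prod_dvd_prod_of_subset _ _ _ ?_
  intro p hp
  rw [Finset.mem_filter, Finset.mem_range] at hp ⊢
  exact ⟨by omega, hp.2⟩

theorem prim_coprime (m : ℕ) : Nat.Coprime (primorial (2 ^ m)) (pr m) := by
  unfold primorial pr oct
  refine Nat.Coprime.prod_left fun p hp => Nat.Coprime.prod_right fun q hq => ?_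
  rw [Finset.mem_filter, Finset.mem_range] at hp
  rw [Finset.mem_filter, Finset.mem_Ioc] at hq
  refine (Nat.coprime_primes hp.2 hq.2).2 ?_
  rintro rfl
  omega

theorem pr_pos (m : ℕ) : 0 < pr m := by
  unfold pr oct
  refine Finset.prod_pos fun p hp => ?_
  rw [Finset.mem_filter] at hp
  exact hp.2.pos

theorem mi_nonneg' {Ω α β : Type*} (μ : FAP Ω) [Fintype α] [DecidableEq α] [Fintype β]
    [DecidableEq β] (X : Ω → α) (Y : Ω → β) : 0 ≤ mi μ X Y := by
  have := dv_event μ X Y (fun _ _ => False)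
  simpa using this

theorem pf_SUM (hUNI : T_UNI) (hDCR : T_DCR) : T_SUM := by
  intro γ _ _ N a b Q _ x hQ hab hN
  have hQ' : (0 : ℝ) < Q := by exact_mod_cast hQ
  have key : ∀ m, m < b →
      info x (Q * 2 ^ m) (primorial (2 ^ m)) (pr m) / (Q * 2 ^ m) ≤
        hc x (Q * 2 ^ m) (primorial (2 ^ m)) / (Q * 2 ^ m) -
          hc x (Q * 2 ^ (m + 1)) (primorial (2 ^ (m + 1))) / (Q * 2 ^ (m + 1)) := by
    intro m hm
    have h1 : primorial (2 ^ m) * pr m ∣ N := by
      rw [← prim_succ]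
      exact (prim_dvd (Nat.pow_le_pow_right (by norm_num) hm)).trans hN
    have h2 := hDCR γ N (primorial (2 ^ m)) (pr m) (Q * 2 ^ m) x (primorial_pos _) (pr_pos m)
      (prim_coprime m) h1
    have h3 : 2 * (Q * 2 ^ m) = Q * 2 ^ (m + 1) := by ring
    rw [h3, ← prim_succ] at h2
    have h4 : (Q : ℝ) * 2 ^ (m + 1) = 2 * (Q * 2 ^ m) := by ring
    have h5 : (0 : ℝ) < Q * 2 ^ m := by positivity
    rw [h4, le_sub_iff_add_le, ← sub_nonneg]
    have h6 : hc x (Q * 2 ^ m) (primorial (2 ^ m)) / (Q * 2 ^ m) -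
        (info x (Q * 2 ^ m) (primorial (2 ^ m)) (pr m) / (Q * 2 ^ m) +
          hc x (Q * 2 ^ (m + 1)) (primorial (2 ^ (m + 1))) / (2 * (Q * 2 ^ m))) =
        (2 * (hc x (Q * 2 ^ m) (primorial (2 ^ m)) -
          info x (Q * 2 ^ m) (primorial (2 ^ m)) (pr m)) -
          hc x (Q * 2 ^ (m + 1)) (primorial (2 ^ (m + 1)))) / (2 * (Q * 2 ^ m)) := by
      field_simp
      ring
    rw [h6]
    exact div_nonneg (by linarith) (by positivity)
  have tel : ∀ c, a ≤ c → c ≤ b →
      ∑ m ∈ Ico a c, info x (Q * 2 ^ m) (primorial (2 ^ m)) (pr m) / (Q * 2 ^ m) ≤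
        hc x (Q * 2 ^ a) (primorial (2 ^ a)) / (Q * 2 ^ a) -
          hc x (Q * 2 ^ c) (primorial (2 ^ c)) / (Q * 2 ^ c) := by
    intro c hac
    induction c, hac using Nat.le_induction with
    | base =>
      intro _
      simp
    | succ c hac ih =>
      intro hcb
      rw [Finset.sum_Ico_succ_top hac]
      have := ih (by omega)
      have := key c (by omega)
      linarith
  refine (tel b hab le_rfl).trans ?_
  have hb0 : 0 ≤ hc x (Q * 2 ^ b) (primorial (2 ^ b)) / (Q * 2 ^ b) := by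
    refine div_nonneg ?_ (by positivity)
    have hne : primorial (2 ^ b) ≠ 0 := (primorial_pos _).ne'
    haveI : NeZero (primorial (2 ^ b)) := ⟨hne⟩
    unfold hc
    rw [dif_neg hne]
    have h1 := (hUNI.2 N (primorial (2 ^ b)) hN).2
    have h2 := ent_comp_le (unif N)
      (fun n => (wd x (Q * 2 ^ b) n, rs N (primorial (2 ^ b)) n)) Prod.snd
    simp only at h2
    rw [h1] at h2
    linarith
  have ha0 : hc x (Q * 2 ^ a) (primorial (2 ^ a)) ≤
      ent (unif N) (fun n => wd x (Q * 2 ^ a) n) := by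
    have hne : primorial (2 ^ a) ≠ 0 := (primorial_pos _).ne'
    haveI : NeZero (primorial (2 ^ a)) := ⟨hne⟩
    unfold hc
    rw [dif_neg hne]
    have h0 : primorial (2 ^ a) ∣ N :=
      (prim_dvd (Nat.pow_le_pow_right (by norm_num) hab)).trans hN
    have h1 := (hUNI.2 N (primorial (2 ^ a)) h0).2
    have h2 := mi_nonneg' (unif N) (fun n => wd x (Q * 2 ^ a) n)
      (fun n => rs N (primorial (2 ^ a)) n)
    unfold mi at h2
    rw [h1] at h2
    linarith
  have ha1 : hc x (Q * 2 ^ a) (primorial (2 ^ a)) / (Q * 2 ^ a) ≤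
      ent (unif N) (fun n => wd x (Q * 2 ^ a) n) / (Q * 2 ^ a) :=
    div_le_div_of_nonneg_right ha0 (by positivity)
  linarith

end Pool.Agent.H81.DE
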